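import Pool.Agent.helper91.HZF.Spec

/-!
Row BDC of project HZF.
-/

set_option autoImplicit false

namespace Pool.Agent.HZF

open Finset Pool.Agent.helper38.Neg Pool.Agent.helper55.NT Pool.Agent.LN

theorem BDC (h : LFC_stmt) : BDC_stmt := by
  intro n s B m C o hh χ σ OA OB a c gg
  let P : Fin n → Fn (n + n) := fun i y => leaf hh χ σ OA OB a c (fun b x => gg b x y) (rv y) i true
  let Q : Fin n → Fn (n + n) := fun i y => leaf hh χ σ OA OB a c (fun b x => gg b x y) (rv y) i false
  set F : Set (Fn (n + n)) := Set.range fun p : Fin B × Fin m => gg p.1 p.2 with hF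
  have h1 : Rel F ((univ : Finset (Fin n)).card * (6 * n + 2 * m + 10)) 0
      (⋃ i ∈ (univ : Finset (Fin n)), {P i}) :=
    Rel.biUnion univ (fun i => {P i}) fun i _ => h n B m hh χ σ OA OB a c gg i true
  have h2 : Rel F ((univ : Finset (Fin n)).card * (6 * n + 2 * m + 10)) 0
      (⋃ i ∈ (univ : Finset (Fin n)), {Q i}) :=
    Rel.biUnion univ (fun i => {Q i}) fun i _ => h n B m hh χ σ OA OB a c gg i false
  have h3 := Rel.dual C P Q
  refine ((h1.union h2).trans' (h3.mono ?_ subset_rfl le_rfl le_rfl)).mono le_rfl ?_ ?_ le_rfl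
  · rintro g (⟨i, rfl⟩ | ⟨i, rfl⟩)
    · refine Or.inr (Or.inl ?_)
      simp only [Set.mem_iUnion]
      exact ⟨i, Finset.mem_univ _, rfl⟩
    · refine Or.inr (Or.inr ?_)
      simp only [Set.mem_iUnion]
      exact ⟨i, Finset.mem_univ _, rfl⟩
  · rintro g rfl
    exact Or.inl ⟨o, rfl⟩
  · rw [Finset.card_univ, Fintype.card_fin]
    have e : n * (6 * n + 2 * m + 10) + n * (6 * n + 2 * m + 10) = 2 * n * (6 * n + 2 * m + 10) := by
      ring
    rw [e, Nat.add_comm]

end Pool.Agent.HZF
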