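import Pool.Agent.helper91.HZF.Spec

/-!
Row BIG of project HZF.
-/

set_option autoImplicit false

namespace Pool.Agent.HZF

open Finset Pool.Agent.helper38.Neg Pool.Agent.helper55.NT Pool.Agent.LN

theorem BIG : BIG_stmt := by
  classical
  intro N ι S f
  induction S using Finset.induction_on with
  | empty =>
    constructor
    · refine (Rel.const _ false).mono le_rfl ?_ (by simp) le_rfl
      rintro g rfl
      rw [Set.mem_singleton_iff]
      funext y
      simp
    · refine (Rel.const _ true).mono le_rfl ?_ (by simp) le_rfl
      rintro g rfl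
      rw [Set.mem_singleton_iff]
      funext y
      simp
  | @insert a S ha ih =>
    set F : Set (Fn N) := ⋃ i ∈ insert a S, {f i} with hF
    have h0 : (⋃ i ∈ S, ({f i} : Set (Fn N))) ⊆ F := by
      intro g hg
      simp only [Set.mem_iUnion, exists_prop] at hg
      obtain ⟨i, hi, hg⟩ := hg
      simp only [hF, Set.mem_iUnion, exists_prop]
      exact ⟨i, Finset.mem_insert_of_mem hi, hg⟩
    have h1 : f a ∈ F := by
      simp only [hF, Set.mem_iUnion, exists_prop]
      exact ⟨a, Finset.mem_insert_self _ _, rfl⟩
    have hc : (insert a S).card = S.card + 1 := Finset.card_insert_of_notMem ha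
    constructor
    · refine ((ih.1.mono h0 subset_rfl le_rfl le_rfl).trans'
        (Rel.or (F := F ∪ {fun y => decide (∃ i ∈ S, f i y = true)}) (Or.inl h1)
          (Or.inr rfl))).mono le_rfl ?_ (by omega) le_rfl
      rintro g rfl
      rw [Set.mem_singleton_iff]
      funext y
      rw [Bool.eq_iff_iff]
      simp
    · refine ((ih.2.mono h0 subset_rfl le_rfl le_rfl).trans'
        (Rel.and (F := F ∪ {fun y => decide (∀ i ∈ S, f i y = true)}) (Or.inl h1)
          (Or.inr rfl))).mono le_rfl ?_ (by omega) le_rfl
      rintro g rfl
      rw [Set.mem_singleton_iff]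
      funext y
      rw [Bool.eq_iff_iff]
      simp

end Pool.Agent.HZF
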