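import Pool.Agent.helper91.HZF.Spec

/-!
Row DV3 of project HZF.
-/

set_option autoImplicit false

namespace Pool.Agent.HZF

open Finset Pool.Agent.helper38.Neg Pool.Agent.helper55.NT

/-- Kleene values as rails: `lo`. -/
def DV3_lo (u : Option Bool) : Bool × Bool := (decide (u = some true), decide (u = some false))

/-- Kleene values as rails: `hi`. -/
def DV3_hi (u : Option Bool) : Bool × Bool := (decide (u ≠ some false), decide (u ≠ some true))

lemma DV3_and : ∀ u v : Option Bool,
    (((DV3_lo u).1 && (DV3_lo v).1, (DV3_lo u).2 || (DV3_lo v).2) = DV3_lo (and3 u v)) ∧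
    (((DV3_hi u).1 && (DV3_hi v).1, (DV3_hi u).2 || (DV3_hi v).2) = DV3_hi (and3 u v)) := by
  decide

lemma DV3_or : ∀ u v : Option Bool,
    (((DV3_lo u).1 || (DV3_lo v).1, (DV3_lo u).2 && (DV3_lo v).2) = DV3_lo (or3 u v)) ∧
    (((DV3_hi u).1 || (DV3_hi v).1, (DV3_hi u).2 && (DV3_hi v).2) = DV3_hi (or3 u v)) := by
  decide

lemma DV3_not : ∀ u : Option Bool,
    (((DV3_lo u).2, (DV3_lo u).1) = DV3_lo (not3 u)) ∧
    (((DV3_hi u).2, (DV3_hi u).1) = DV3_hi (not3 u)) := by
  decide

lemma DV3_const : ∀ b : Bool, ((b, !b) = DV3_lo (some b)) ∧ ((b, !b) = DV3_hi (some b)) := by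
  decide

theorem DV3 : DV3_stmt := by
  intro n s C α j
  change dval C (fun i => loR α i true) (fun i => loR α i false) j = DV3_lo (val3 C α j) ∧
    dval C (fun i => hiR α i true) (fun i => hiR α i false) j = DV3_hi (val3 C α j)
  induction C with
  | nil => exact ⟨rfl, rfl⟩
  | @snoc s C g ih =>
    refine Fin.lastCases ?_ (fun k => ?_) j
    · simp only [val3, dval, Fin.snoc_last]
      cases g with
      | const b => exact DV3_const b
      | and i j =>
        simp only [gdual, eval3, (ih i).1, (ih i).2, (ih j).1, (ih j).2]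
        exact DV3_and _ _
      | or i j =>
        simp only [gdual, eval3, (ih i).1, (ih i).2, (ih j).1, (ih j).2]
        exact DV3_or _ _
      | not i =>
        simp only [gdual, eval3, (ih i).1, (ih i).2]
        exact DV3_not _
    · simp only [val3, dval, Fin.snoc_castSucc]
      exact ih k

end Pool.Agent.HZF
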