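import Pool.Agent.helper91.HZF.Spec

/-!
Row STC of project HZF.
-/

set_option autoImplicit false

namespace Pool.Agent.HZF

open Finset Pool.Agent.helper38.Neg Pool.Agent.helper55.NT Pool.Agent.LN

lemma STC_ex (h : BIG_stmt) {N : ℕ} {ι : Type} {F : Set (Fn N)} {w M : ℕ} (S : Finset ι)
    (f : ι → Fn N) (hS : S.card ≤ M) (hf : ∀ i ∈ S, Rel F w 0 {f i}) (g : Fn N)
    (hg : ∀ y, g y = true ↔ ∃ i ∈ S, f i y = true) : Rel F (M * w + M + 1) 0 {g} := by
  have h1 := Rel.biUnion S (fun i => ({f i} : Set (Fn N))) hf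
  have h2 := (h N ι S f).1
  refine (h1.trans' (h2.mono Set.subset_union_right subset_rfl le_rfl le_rfl)).mono le_rfl
    ?_ ?_ le_rfl
  · rintro g' rfl
    rw [Set.mem_singleton_iff]
    funext y
    rw [Bool.eq_iff_iff, hg y, decide_eq_true_eq]
  · have := Nat.mul_le_mul_right w hS
    omega

lemma STC_all (h : BIG_stmt) {N : ℕ} {ι : Type} {F : Set (Fn N)} {w M : ℕ} (S : Finset ι)
    (f : ι → Fn N) (hS : S.card ≤ M) (hf : ∀ i ∈ S, Rel F w 0 {f i}) (g : Fn N)
    (hg : ∀ y, g y = true ↔ ∀ i ∈ S, f i y = true) : Rel F (M * w + M + 1) 0 {g} := by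
  have h1 := Rel.biUnion S (fun i => ({f i} : Set (Fn N))) hf
  have h2 := (h N ι S f).2
  refine (h1.trans' (h2.mono Set.subset_union_right subset_rfl le_rfl le_rfl)).mono le_rfl
    ?_ ?_ le_rfl
  · rintro g' rfl
    rw [Set.mem_singleton_iff]
    funext y
    rw [Bool.eq_iff_iff, hg y, decide_eq_true_eq]
  · have := Nat.mul_le_mul_right w hS
    omega

theorem STC (h1 : BIG_stmt) (h2 : BDC_stmt) (h3 : CSB_stmt) : STC_stmt := by
  intro n s B m C o k hh χ σ gg
  set F : Set (Fn (n + n)) := Set.range fun p : Fin B × Fin m => gg p.1 p.2 with hF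
  obtain ⟨b, hb⟩ : ∃ b, b = 2 * s + 2 * n * (6 * n + 2 * m + 10) := ⟨_, rfl⟩
  rw [← hb]
  let S : Finset (Finset (Fin B)) := univ.filter fun O => O.card ≤ k ∧ supp σ ⊆ O
  have hSc : S.card ≤ (B + 1) ^ k := by
    refine (Finset.card_le_card ?_).trans (h3 B k)
    intro O hO
    simp only [S, Finset.mem_filter, Finset.mem_univ, true_and] at hO ⊢
    exact hO.1
  have hP : 0 < (B + 1) ^ k := Nat.pow_pos (Nat.succ_pos _)
  have hpw : ∀ O ∈ S, O.powerset.card ≤ 2 ^ k := by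
    intro O hO
    simp only [S, Finset.mem_filter, Finset.mem_univ, true_and] at hO
    rw [Finset.card_powerset]
    exact Nat.pow_le_pow_right (by norm_num) hO.1
  let W0 : Finset (Fin B) → Finset (Fin B) → Finset (Fin B) → Finset (Fin B) → Fn (n + n) :=
    fun OA OB a c y => body C o hh χ σ OA OB a c (fun b x => gg b x y) (rv y)
  have r0 : ∀ OA OB a c, Rel F b 0 {W0 OA OB a c} := by
    intro OA OB a c
    rw [hb]
    exact h2 n s B m C o hh χ σ OA OB a c gg
  let W1 : Finset (Fin B) → Finset (Fin B) → Finset (Fin B) → Fn (n + n) :=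
    fun OA OB a y => decide (∀ c ∈ OA.powerset, W0 OA OB a c y = true)
  have r1 : ∀ OA ∈ S, ∀ OB a, Rel F (2 ^ k * b + 2 ^ k + 1) 0 {W1 OA OB a} := fun OA hOA OB a =>
    STC_all h1 OA.powerset (fun c => W0 OA OB a c) (hpw OA hOA) (fun c _ => r0 OA OB a c)
      _ fun y => decide_eq_true_iff
  let W2 : Finset (Fin B) → Finset (Fin B) → Fn (n + n) :=
    fun OA OB y => decide (∃ a ∈ OB.powerset, W1 OA OB a y = true)
  have r2 : ∀ OA ∈ S, ∀ OB ∈ S, Rel F (4 ^ k * (b + 4)) 0 {W2 OA OB} := by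
    intro OA hOA OB hOB
    refine (STC_ex h1 OB.powerset (fun a => W1 OA OB a) (hpw OB hOB) (fun a _ =>
      r1 OA hOA OB a) _ fun y => decide_eq_true_iff).mono le_rfl subset_rfl ?_ le_rfl
    have e4 : (4 : ℕ) ^ k = 2 ^ k * 2 ^ k := by
      rw [← Nat.mul_pow]
    rw [e4]
    have hp : 0 < 2 ^ k := Nat.pow_pos (by norm_num)
    generalize 2 ^ k = t at hp ⊢
    nlinarith
  let W3 : Finset (Fin B) → Fn (n + n) := fun OB y => decide (∃ OA ∈ S, W2 OA OB y = true)
  have r3 : ∀ OB ∈ S, Rel F ((B + 1) ^ k * 4 ^ k * (b + 6)) 0 {W3 OB} := by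
    intro OB hOB
    refine (STC_ex h1 S (fun OA => W2 OA OB) hSc (fun OA hOA => r2 OA hOA OB hOB) _
      fun y => decide_eq_true_iff).mono le_rfl
      subset_rfl ?_ le_rfl
    have h4 : 0 < 4 ^ k := Nat.pow_pos (by norm_num)
    generalize (B + 1) ^ k = p at hP ⊢
    generalize 4 ^ k = t at h4 ⊢
    have : p * 1 ≤ p * t := Nat.mul_le_mul_left _ h4
    nlinarith
  have r4 : Rel F ((B + 1) ^ k * (B + 1) ^ k * 4 ^ k * (b + 8)) 0
      {fun y => decide (∀ OB ∈ S, W3 OB y = true)} := by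
    refine (STC_all h1 S W3 hSc (fun OB hOB => r3 OB hOB) _
      fun y => decide_eq_true_iff).mono le_rfl
      subset_rfl ?_ le_rfl
    have h4 : 0 < 4 ^ k := Nat.pow_pos (by norm_num)
    generalize (B + 1) ^ k = p at hP ⊢
    generalize 4 ^ k = t at h4 ⊢
    have e1 : p * 1 ≤ p * p := Nat.mul_le_mul_left _ hP
    have e2 : p * p * 1 ≤ p * p * t := Nat.mul_le_mul_left _ h4
    nlinarith
  refine r4.mono le_rfl ?_ (le_of_eq ?_) le_rfl
  · rintro g rfl
    rw [Set.mem_singleton_iff]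
    funext y
    rw [Bool.eq_iff_iff]
    simp only [step, decide_eq_true_eq, W3, W2, W1, W0, S, Finset.mem_filter, Finset.mem_univ,
      true_and, Finset.mem_powerset]
  · have e : (4 * (B + 1) ^ 2) ^ k = (B + 1) ^ k * (B + 1) ^ k * 4 ^ k := by
      rw [Nat.mul_pow, ← pow_mul, Nat.mul_comm 2 k, pow_mul, pow_two]
      ring
    rw [e]

end Pool.Agent.HZF
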